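import Pool.Agent.R948.GEc

/-!
# MP_bde085_nt: the Shimura map along closed geodesics

A hyperbolic element `γ` of `Γ₀(N)` (`|tr γ| > 2`) is a closed geodesic on `X₀(N)` of length
`2 arcosh (|tr γ| / 2)`, and `log |tr γ|` is comparable with that length. Each of the following is
equivalent to Q1, i.e. to the frozen statement `S18337` (word for word in `Q1`), which is known to be
equivalent to Szpiro's conjecture.

* (a) There are `κ`, `C` such that the coordinates of `H(γ)` are at most `C N ^ κ log |tr γ|` for all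
  newforms of all levels `N` and ALL hyperbolic `γ ∈ Γ₀(N)`.
* (b) There are `κ`, `C` such that they are at most `C (N |tr γ|) ^ κ` for all hyperbolic
  `γ ∈ Γ₀(N)`.
* (c) For a given function `M` with `N ∣ M(N) ≤ N ^ A`: they are at most `C N ^ κ` for the hyperbolic
  `γ ∈ Γ₀(M(N))` with `|tr γ| ≤ 17 * 64 ^ ω(M(N)) * M(N) + 2`. For `M(N) = N` these are closed
  geodesics on `X₀(N)` of length at most `(2 + o(1)) log N`.
* (d) For given functions `M ≥ 1` and `L`: the bound of (a) for the `γ` in the principal congruence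
  subgroup `Γ(M(N))` with `|tr γ| ≥ L(N)`.
* (e) For a given family of sets `S(N)`, such that every hyperbolic element of `Γ₀(N)` has a
  `Γ₀(N)`-conjugate with a positive power in `S(N)`: the bound of (a) for `γ ∈ S(N)`.
-/

set_option autoImplicit false

namespace Pool.Agent.Results.MP_bde085_nt.ClosedGeodesics

open Pool.Agent.R948.GE Pool.Agent.TH133.SH

theorem result :
    (Q1 ↔ GeodesicBoundOn fun _ => Set.univ) ∧
    (Q1 ↔ PolynomialInTrace) ∧
    (∀ M : ℕ → ℕ, PolyLevels M → (Q1 ↔ ShortGeodesics M)) ∧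
    (∀ M L : ℕ → ℕ, (∀ N, M N ≠ 0) → (Q1 ↔ GeodesicBoundOn (Deep M L))) ∧
    (∀ S : ℕ → Set (Matrix.SpecialLinearGroup (Fin 2) ℤ), Meets S →
      (Q1 ↔ GeodesicBoundOn S)) := by
  have h := geodesic_tfae
  have h2 : Q1 ↔ GeodesicBoundOn fun _ => Set.univ := q1_iff.trans (h.out 0 1)
  have h3 : ∀ S : ℕ → Set (Matrix.SpecialLinearGroup (Fin 2) ℤ), Meets S →
      (Q1 ↔ GeodesicBoundOn S) := fun S hS =>
    ⟨fun hq => (h2.1 hq).mono fun N => Set.subset_univ _,
      fun hg => h2.2 (geodesicBound_of_on S hS hg)⟩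
  have h4 : EntriesAtMost 2 ↔ ∀ M : ℕ → ℕ, PolyLevels M → ShortGeodesics M := h.out 0 3
  have h5 : EntriesAtMost 2 ↔ ∃ M : ℕ → ℕ, PolyLevels M ∧ ShortGeodesics M := h.out 0 4
  exact ⟨h2, q1_iff.trans (h.out 0 2),
    fun M hM => ⟨fun hq => h4.1 (q1_iff.1 hq) M hM, fun hg => q1_iff.2 (h5.2 ⟨M, hM, hg⟩)⟩,
    fun M L hM => h3 _ (meets_deep M L hM), h3⟩

end Pool.Agent.Results.MP_bde085_nt.ClosedGeodesics
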