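import Pool.Agent.R948.GEh

/-!
# MP_bde085_nt: the Shimura map and Lipschitz functions on the hyperbolic plane

Each of the following is equivalent to Q1, i.e. to the frozen statement `S18337` (word for word in
`Q1`).

* There are `κ`, `C` such that for all newforms of all levels `N` there are real functions `u`, `v`
  on the hyperbolic plane, Lipschitz with constant `C N ^ κ` for the hyperbolic distance, with
  `H(γ) = (u (γ τ) - u τ) Ω₁ + (v (γ τ) - v τ) Ω₂` for all `γ ∈ Γ₀(N)` and all `τ`.
* The same with `u`, `v` only varying by at most `C N ^ κ exp (κ d)` between points at distance `d`.

Any functions with these periods are allowed, not only the harmonic ones (the coordinates of the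
integral of `f`); nothing is assumed about continuity in the second form.
-/

set_option autoImplicit false

namespace Pool.Agent.Results.MP_bde085_nt.LipschitzForm

open Pool.Agent.R948.GE

theorem result : (Q1 ↔ LipschitzForm) ∧ (Q1 ↔ ExponentialForm) :=
  ⟨q1_iff_lipschitz, q1_iff_exponential⟩

end Pool.Agent.Results.MP_bde085_nt.LipschitzForm
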