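import Pool.Agent.R948.GEf

/-!
# MP_bde085_nt: the Shimura map on small matrices congruent to the identity

* (1) Let `N ∣ M`, and let `φ` be a real-valued homomorphism on `Γ₀(N)` which vanishes on the
  elements of trace `± 2`. If `|φ| ≤ X` at the elements of the principal congruence subgroup `Γ(M)`
  with entries at most `1024 M ^ 9`, then `|φ γ| ≤ 36 X log |tr γ|` for ALL `γ ∈ Γ₀(N)` with
  `|tr γ| > 2`. The constant does not depend on `N` and `M`.
* (2) For every function `M` with `N ∣ M(N) ≤ N ^ A` (for instance `M(N) = N ^ 100`) the question Q1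
  is equivalent to a polynomial bound of the coordinates of `H(γ)` for the `γ ∈ Γ(M(N))` with entries
  at most `1024 M(N) ^ 9`.

Proof of (1). Every element of `SL₂(ℤ)` is congruent modulo `M` to one with entries at most
`16 M ^ 4` (five elementary matrices). Write an element of `Γ(M)` as a word of logarithmic length in
`S` and powers of `T` (nearest integer continued fraction); a power `T ^ (M q)` between two
representatives is parabolic and can be dropped. So `φ` grows at most logarithmically on `Γ(M)`,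
and the powers of `γ ∈ Γ₀(N)`, which meet `Γ(M)`, give the bound by the length of the geodesic.
-/

set_option autoImplicit false

namespace Pool.Agent.Results.MP_bde085_nt.SmallCongruentToOne

open Pool.Agent.R948.GE Pool.Agent.TH133.SH

theorem result :
    (∀ N M : ℕ, N ∣ M → 0 < M → ∀ φ : Matrix.SpecialLinearGroup (Fin 2) ℤ → ℝ,
      (∀ γ δ : Matrix.SpecialLinearGroup (Fin 2) ℤ, (N : ℤ) ∣ γ 1 0 → (N : ℤ) ∣ δ 1 0 →
        φ (γ * δ) = φ γ + φ δ) →
      (∀ γ : Matrix.SpecialLinearGroup (Fin 2) ℤ, (N : ℤ) ∣ γ 1 0 →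
        (γ 0 0 + γ 1 1) ^ 2 = 4 → φ γ = 0) →
      ∀ X : ℝ, (∀ γ ∈ CongruenceSubgroup.Gamma M,
        (∀ i j, |γ i j| ≤ 1024 * (M : ℤ) ^ 9) → |φ γ| ≤ X) →
      ∀ γ : Matrix.SpecialLinearGroup (Fin 2) ℤ, (N : ℤ) ∣ γ 1 0 → 2 < |γ 0 0 + γ 1 1| →
        |φ γ| ≤ 36 * X * Real.log |((γ 0 0 + γ 1 1 : ℤ) : ℝ)|) ∧
    (∀ M : ℕ → ℕ, PolyLevels M → (Q1 ↔ SmallDeep M)) :=
  ⟨fun _ _ hNM hM _ h1 h2 _ hX _ hγ ht => hom_bound hNM hM ⟨h1, h2⟩ hX hγ ht, q1_iff_smallDeep⟩

end Pool.Agent.Results.MP_bde085_nt.SmallCongruentToOne
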